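import Pool.Agent.W466.HF4

/-!
# MP_676d90_ag: the least Hilbert function of `r` fat points of multiplicity `m`

For every infinite field `K` (in particular `ℂ`), every `n ≥ 1`, `r` and `m`, the set of all Hilbert
functions of the schemes `m P_1 + ... + m P_r`, where `{P_1, ..., P_r}` runs through all sets of `r`
distinct points of `ℙ^n`, has a least element, and we determine it:

  `H₀(d) = ∑_{j < m} multichoose (n - 1) j * min (d + 1 - j) (r (m - j))`

(truncated subtraction); for double points, `H₀(d) = min (d + 1) (2 r) + (n - 1) min d r`.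
-/

open MvPolynomial LinearAlgebra.Projectivization

namespace Pool.Agent.Results.MP_676d90_ag.LeastHilbert

open scoped LinearAlgebra.Projectivization

variable {K : Type*} [Field K] {n : ℕ}

/-- The homogeneous prime ideal of the point `P`: it is generated by all forms vanishing at `P`. -/
noncomputable def pointIdeal (P : ℙ K (Fin (n + 1) → K)) : Ideal (MvPolynomial (Fin (n + 1)) K) :=
  Ideal.span {F | (∃ e, F.IsHomogeneous e) ∧ eval P.rep F = 0}

/-- The `m`-th symbolic power `I_Y^(m) = ⋂_{P ∈ Y} I_P^m` of the ideal of the finite set `Y`. -/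
noncomputable def symbolicPower (m : ℕ) (Y : Finset (ℙ K (Fin (n + 1) → K))) :
    Ideal (MvPolynomial (Fin (n + 1)) K) :=
  ⨅ P ∈ Y, pointIdeal P ^ m

/-- The Hilbert function of `R / I_Y^(m)` at `d`: the dimension of the image of the space of forms
of degree `d` in `R / I_Y^(m)`. -/
noncomputable def hilbert (m : ℕ) (Y : Finset (ℙ K (Fin (n + 1) → K))) (d : ℕ) : ℕ :=
  Module.finrank K ((homogeneousSubmodule (Fin (n + 1)) K d).map
    (Ideal.Quotient.mkₐ K (symbolicPower m Y)).toLinearMap)

theorem result (K : Type*) [Field K] [Infinite K] (n r m : ℕ) (hn : 1 ≤ n) :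
    ∃ Y₀ : Finset (ℙ K (Fin (n + 1) → K)), Y₀.card = r ∧
      (∀ Y : Finset (ℙ K (Fin (n + 1) → K)), Y.card = r →
        ∀ d, hilbert m Y₀ d ≤ hilbert m Y d) ∧
      (∀ d, hilbert m Y₀ d =
        ∑ j ∈ Finset.range m, Nat.multichoose (n - 1) j * min (d + 1 - j) (r * (m - j))) ∧
      (m = 2 → ∀ d, hilbert m Y₀ d = min (d + 1) (2 * r) + (n - 1) * min d r) := by
  classical
  obtain ⟨k, rfl⟩ : ∃ k, n = k + 1 := ⟨n - 1, by omega⟩
  have hlow : ∀ Y : Finset (ℙ K (Fin (k + 1 + 1) → K)), Y.card = r → ∀ d,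
      Module.finrank K (Pool.Agent.W466.HF.W K k r m d) ≤ hilbert m Y d := by
    intro Y hY d
    refine Pool.Agent.W466.HF.lower (ι := Y) (by rw [Fintype.card_coe, hY])
      (fun P => P.1.rep) (fun P => P.1.rep_nonzero) ?_ m d (symbolicPower m Y) ?_
    · intro P Q hPQ a b ha h
      apply hPQ
      apply Subtype.ext
      rw [← P.1.mk_rep, ← Q.1.mk_rep, Projectivization.mk_eq_mk_iff']
      refine ⟨a⁻¹ * b, ?_⟩
      rw [mul_smul, ← h, smul_smul, inv_mul_cancel₀ ha, one_smul]
    · intro P
      exact (iInf_le _ P.1).trans (iInf_le _ P.2)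
  obtain ⟨B, hB⟩ := Infinite.exists_subset_card_eq K r
  have hcv : ∀ b : K, Pool.Agent.W466.HF.cv k b ≠ 0 := by
    intro b h
    have := congrFun h 0
    exact one_ne_zero this
  have hinj : Function.Injective fun b : K =>
      (Projectivization.mk K (Pool.Agent.W466.HF.cv k b) (hcv b)) := by
    intro b c h
    have h' : Projectivization.mk K (Pool.Agent.W466.HF.cv k b) (hcv b) =
      Projectivization.mk K (Pool.Agent.W466.HF.cv k c) (hcv c) := h
    rw [Projectivization.mk_eq_mk_iff'] at h'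
    obtain ⟨a, ha⟩ := h'
    have h0 := congrFun ha 0
    have h1 := congrFun ha 1
    have e0 : ∀ x : K, Pool.Agent.W466.HF.cv k x 0 = 1 := fun x => rfl
    have e1 : ∀ x : K, Pool.Agent.W466.HF.cv k x 1 = x := fun x => rfl
    rw [Pi.smul_apply, smul_eq_mul, e0, e0, mul_one] at h0
    rw [Pi.smul_apply, smul_eq_mul, e1, e1, h0, one_mul] at h1
    exact h1.symm
  set Y₀ : Finset (ℙ K (Fin (k + 1 + 1) → K)) := B.image fun b : K =>
      (Projectivization.mk K (Pool.Agent.W466.HF.cv k b) (hcv b)) with hY₀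
  have hcard : Y₀.card = r := by
    rw [hY₀, Finset.card_image_of_injective _ hinj, hB]
  have hup : ∀ d, hilbert m Y₀ d ≤ Module.finrank K (Pool.Agent.W466.HF.W K k r m d) := by
    intro d
    rw [← hB]
    refine Pool.Agent.W466.HF.upper B m d (symbolicPower m Y₀) ?_
    refine le_iInf fun P => le_iInf fun hP => ?_
    rw [hY₀, Finset.mem_image] at hP
    obtain ⟨b, hb, rfl⟩ := hP
    refine (iInf_le _ b).trans ((iInf_le _ hb).trans (le_of_eq ?_))
    obtain ⟨a, ha⟩ := Projectivization.exists_smul_eq_mk_rep K _ (hcv b)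
    congr 1
    have h2 := Pool.Agent.W466.HF.vIdeal_smul (a : K) a.ne_zero (Pool.Agent.W466.HF.cv k b)
    rw [← h2]
    have h3 : (a : K) • Pool.Agent.W466.HF.cv k b =
      (Projectivization.mk K (Pool.Agent.W466.HF.cv k b) (hcv b)).rep := ha
    rw [h3]
    rfl
  have hval : ∀ d, hilbert m Y₀ d =
      ∑ j ∈ Finset.range m, Nat.multichoose k j * min (d + 1 - j) (r * (m - j)) := by
    intro d
    rw [← Pool.Agent.W466.HF.finrank_W (K := K)]
    exact le_antisymm (hup d) (hlow Y₀ hcard d)
  refine ⟨Y₀, hcard, fun Y hY d => (hup d).trans (hlow Y hY d), ?_, ?_⟩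
  · intro d
    rw [hval, Nat.add_sub_cancel]
  · intro hm d
    rw [hval, hm, Finset.sum_range_succ, Finset.sum_range_one, Nat.multichoose_zero_right,
      Nat.multichoose_one_right, one_mul, Nat.sub_zero, Nat.sub_zero, Nat.add_sub_cancel,
      Nat.add_sub_cancel, mul_comm r 2]
    simp

end Pool.Agent.Results.MP_676d90_ag.LeastHilbert
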